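import Pool.Agent.R121.LA

set_option autoImplicit false

/-!
# Almost primes at the top of a fixed column of the `n`-by-`n` array
-/

namespace Pool.Agent.Results.MP_418075_nt.FixedColumnAlmostPrimes

open Finset
open Pool.Agent

open Classical in
/-- the number of the `1 ≤ j ≤ T` such that the entry `N = j n + c` of the column `c` has at most `k` prime factors
(counted with multiplicity), all of them at least `w` -/
noncomputable def entries (c n k : ℕ) (w T : ℝ) : ℕ :=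
  ((Icc 1 ⌊T⌋₊).filter (fun j : ℕ => (j * n + c).primeFactorsList.length ≤ k ∧
    ∀ p : ℕ, p.Prime → p ∣ j * n + c → w ≤ p)).card

lemma cnt_le (c n k : ℕ) (w T : ℝ) :
    R490.LGb.cnt (fun j => 1 * j + 0) (fun _ => (c : ℤ)) k ⌊T⌋₊ n w ≤ entries c n k w T := by
  classical
  unfold R490.LGb.cnt entries
  apply card_le_card
  intro j hj
  rw [mem_filter] at hj ⊢
  obtain ⟨h1, h2, h3, h4⟩ := hj
  have e : ((1 * j + 0 : ℕ) : ℤ) * n + c = ((j * n + c : ℕ) : ℤ) := by push_cast; ring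
  rw [e] at h3 h4
  rw [Int.toNat_natCast] at h3
  exact ⟨h1, h3, fun p hp hd => h4 p hp (by exact_mod_cast hd)⟩

/-- **For almost all `n` prime to `c` the top of the column `c` of the `n`-by-`n` array contains many almost
primes.** -/
theorem result (c : ℕ) (hc : 1 ≤ c) (θ ε : ℝ) (k : ℕ) (hθ : 0 < θ) (hθ1 : θ ≤ 1)
    (hk : 1 / 8 + 25 / (12 * θ) < k) (hε : 0 < ε) :
    ∃ κ Λ : ℝ, 0 < κ ∧ 0 < Λ ∧ ∀ l : ℝ, Λ ≤ l → ∃ X₀ : ℕ, ∀ X : ℕ, X₀ ≤ X → ∀ Z L : ℕ,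
      (X : ℝ) ^ θ ≤ L → Z + L ≤ X →
      (({n : ℕ | n ∈ Ioc Z (Z + L) ∧ c.Coprime n ∧
        (entries c n k ((X : ℝ) ^ (θ / 10)) (l * Real.log X) : ℝ) < κ * l} : Set ℕ).ncard : ℝ) ≤
        ε * L := by
  classical
  obtain ⟨κ, Λ, hκ, hΛ, h⟩ := R121.LA.mainA 1 0 (c : ℤ) le_rfl (by omega) θ ε k hθ hθ1 hk hε
  refine ⟨κ, Λ, hκ, hΛ, ?_⟩
  intro l hl
  obtain ⟨X₀, hX₀⟩ := Filter.eventually_atTop.1 (h l hl)
  refine ⟨X₀, ?_⟩
  intro X hX Z L hL hZ
  have h3 := hX₀ X hX Z L hL hZ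
  refine le_trans ?_ h3
  rw [← Set.ncard_coe_finset]
  have hadm : ∀ n : ℕ, c.Coprime n → R121.LA.AdmA 1 0 (c : ℤ) n := by
    intro n hn p hp
    by_contra hno
    push Not at hno
    have k0 := hno 0
    have k1 := hno 1
    have e0 : ((1 * 0 + 0 : ℕ) : ℤ) * n + c = (c : ℤ) := by push_cast; ring
    have e1 : ((1 * 1 + 0 : ℕ) : ℤ) * n + c = ((n + c : ℕ) : ℤ) := by push_cast; ring
    rw [e0] at k0
    rw [e1] at k1
    have l0 : p ∣ c := by exact_mod_cast k0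
    have l1 : p ∣ n + c := by exact_mod_cast k1
    have l2 : p ∣ n := (Nat.dvd_add_left l0).1 l1
    have h5 := Nat.dvd_gcd l0 l2
    rw [hn] at h5
    exact hp.one_lt.ne' (Nat.dvd_one.1 h5)
  have hsub : ({n : ℕ | n ∈ Ioc Z (Z + L) ∧ c.Coprime n ∧
        (entries c n k ((X : ℝ) ^ (θ / 10)) (l * Real.log X) : ℝ) < κ * l} : Set ℕ) ⊆
      (((Ioc Z (Z + L)).filter (fun n => R121.LA.AdmA 1 0 (c : ℤ) n ∧
        (R490.LGb.cnt (fun j => 1 * j + 0) (fun _ => (c : ℤ)) k ⌊l * Real.log X⌋₊ n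
          ((X : ℝ) ^ (θ / 10)) : ℝ) < κ * l)) : Finset ℕ) := by
    intro n hn
    obtain ⟨a1, ao, a2⟩ := hn
    rw [mem_coe, mem_filter]
    refine ⟨a1, hadm n ao, ?_⟩
    have a3 : (R490.LGb.cnt (fun j => 1 * j + 0) (fun _ => (c : ℤ)) k ⌊l * Real.log X⌋₊ n
        ((X : ℝ) ^ (θ / 10)) : ℝ) ≤
        entries c n k ((X : ℝ) ^ (θ / 10)) (l * Real.log X) := by exact_mod_cast cnt_le c n k _ _
    linarith
  have h4 := Set.ncard_le_ncard hsub (Finset.finite_toSet _)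
  exact_mod_cast h4

end Pool.Agent.Results.MP_418075_nt.FixedColumnAlmostPrimes
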